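import Pool.Agent.Y962.BD.Main1
import Pool.Agent.W723.BDL.Axes

/-!
# Scaling limit of stationary ballistic deposition heights on the line

There is a stationary law of ballistic deposition on `ℤ` seen from the origin, which has integrable
heights and is invariant under translations and under the reflection, such that `g(x) / |x|`
converges in law as `|x| → ∞` to a law `ρ` on `ℝ`, not the point mass at `0`. Moreover `ρ` is the
law of a random slope `U`, with `E |g(x) - x U| = o(|x|)`.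
-/

namespace Pool.Agent.Results.MP_c264fd_pr.DimensionOne

open MeasureTheory Filter Topology Pool.Agent.W833.BD Pool.Agent.Y962.BD

theorem result :
    ∃ (μ : Measure (Om 1)) (_ : IsProbabilityMeasure μ) (ρ : Measure ℝ)
      (_ : IsProbabilityMeasure ρ) (U : Om 1 → ℝ),
      Stationary μ ∧ (∀ᵐ g ∂μ, g 0 = 0) ∧
      (∀ x : V 1, Integrable (fun g : Om 1 => (g x : ℝ)) μ) ∧
      (∀ z : V 1, μ.map (fun g y => g (y + z) - g z) = μ) ∧
      (∀ s : ℤˣ, μ.map (fun g y => g (fun i => (s : ℤ) * y i)) = μ) ∧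
      ρ ≠ Measure.dirac 0 ∧
      TendstoInDistribution (fun (x : V 1) (g : Om 1) => (g x : ℝ) / |(x 0 : ℝ)|)
        (Filter.comap (fun x : V 1 => |(x 0 : ℝ)|) atTop) (fun r : ℝ => r) (fun _ => μ) ρ ∧
      Measurable U ∧ Integrable U μ ∧ μ.map U = ρ ∧
      ∀ ε : ℝ, 0 < ε → ∃ M : ℝ, ∀ x : V 1, M ≤ |(x 0 : ℝ)| →
        ∫ g, |(g x : ℝ) - (x 0 : ℝ) * U g| ∂μ ≤ ε * |(x 0 : ℝ)| := by
  obtain ⟨ν, a, hν, ha, hmean⟩ := exists_nice1
  have hμ := hν.symm
  have hS : ∀ (π : Equiv.Perm (Fin 1)) (s : Fin 1 → ℤˣ),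
      (Pool.Agent.W833.BD.symm ν).map (Sp π s) = Pool.Agent.W833.BD.symm ν :=
    fun π s => symm_map ν π s
  have hne := W723.BDL.slope_ne hν ha hmean (fun _ => 1) (by
    intro h
    have := congrFun h 0
    simp at this)
  set μ := Pool.Agent.W833.BD.symm ν with hμd
  have hp : IsProbabilityMeasure μ := hμ.wstat.prob
  have hm0 := W723.BDL.measurable_U μ (0 : Fin 1)
  have hρ : IsProbabilityMeasure (μ.map (fun g => W723.BDL.U μ g 0)) :=
    Measure.isProbabilityMeasure_map hm0.aemeasurable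
  have heu : ∀ x : V 1, W723.BDL.eu x = |(x 0 : ℝ)| := by
    intro x
    unfold W723.BDL.eu
    rw [Fin.sum_univ_one, Real.sqrt_sq_eq_abs]
  have hsum : ∀ (x : V 1) (g : Om 1), ∑ i, (x i : ℝ) * W723.BDL.U μ g i
      = (x 0 : ℝ) * W723.BDL.U μ g 0 := by
    intro x g
    rw [Fin.sum_univ_one]
  refine ⟨μ, hp, μ.map (fun g => W723.BDL.U μ g 0), hρ, fun g => W723.BDL.U μ g 0,
    hμ.wstat.stationary, hμ.wstat.zero, hμ.int, hμ.trans,
    fun s => symm_map ν (Equiv.refl _) (fun _ => s), ?_, ?_, hm0, W723.BDL.integrable_U μ 0,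
    rfl, ?_⟩
  · intro hcon
    refine hne ?_
    have h1 : (fun g => ∑ i, (1 : ℝ) * W723.BDL.U μ g i) = fun g => W723.BDL.U μ g 0 := by
      funext g
      rw [Fin.sum_univ_one, one_mul]
    rw [h1]
    exact hcon
  · refine ⟨fun x => ((W723.BDL.measurable_eval x).div_const _).aemeasurable,
      measurable_id.aemeasurable, tendsto_of_seq_tendsto fun u hu => ?_⟩
    have h1 : Tendsto (fun n => W723.BDL.eu (u n)) atTop atTop := by
      simp only [heu]
      exact tendsto_comap_iff.1 hu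
    have h2 := W723.BDL.axes hμ hS u (fun n => ⟨0, u n 0, by
      funext i
      rw [Subsingleton.elim i 0, Pi.single_eq_same]⟩) h1
    simp only [heu] at h2
    exact h2.tendsto
  · intro ε hε
    obtain ⟨C, hC⟩ := W723.BDL.lln hμ (half_pos hε)
    refine ⟨2 * C / ε, fun x hx => ?_⟩
    have h2 := hC x
    simp only [hsum, heu] at h2
    rw [div_le_iff₀ hε] at hx
    linarith

end Pool.Agent.Results.MP_c264fd_pr.DimensionOne
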